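import Mathlib

set_option autoImplicit false

/-!
A field with an absolute value that is the usual one on the natural numbers embeds
isometrically into the complex numbers (Ostrowski).
-/

namespace Pool.Agent.V119.Ostrowski

universe u

open Filter Topology

section Norm

variable {L : Type u} [NormedField L] [NormedAlgebra ℝ L]

lemma norm_algEquiv_complex (e : L ≃ₐ[ℝ] ℂ) (x : L) : ‖e x‖ = ‖x‖ := by
  -- `N z = ‖e⁻¹ z‖`
  have hreal : ∀ r : ℝ, ‖e.symm (r : ℂ)‖ = |r| := by
    intro r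
    have h : e.symm (r : ℂ) = algebraMap ℝ L r := e.symm.commutes r
    rw [h, norm_algebraMap']
    rfl
  have hI : ‖e.symm Complex.I‖ = 1 := by
    have h : ‖e.symm Complex.I‖ ^ 2 = 1 := by
      rw [← norm_pow, ← map_pow, Complex.I_sq, map_neg, map_one, norm_neg, norm_one]
    nlinarith [norm_nonneg (e.symm Complex.I)]
  have hbound : ∀ z : ℂ, ‖e.symm z‖ ≤ |z.re| + |z.im| := by
    intro z
    have h : z = (z.re : ℂ) + (z.im : ℂ) * Complex.I := (Complex.re_add_im z).symm
    calc ‖e.symm z‖ = ‖e.symm ((z.re : ℂ) + (z.im : ℂ) * Complex.I)‖ := by rw [← h]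
      _ = ‖e.symm (z.re : ℂ) + e.symm (z.im : ℂ) * e.symm Complex.I‖ := by rw [map_add, map_mul]
      _ ≤ ‖e.symm (z.re : ℂ)‖ + ‖e.symm (z.im : ℂ) * e.symm Complex.I‖ := norm_add_le _ _
      _ = |z.re| + |z.im| := by rw [norm_mul, hreal, hreal, hI, mul_one]
  have hunit : ∀ z : ℂ, ‖z‖ = 1 → ‖e.symm z‖ ≤ 1 := by
    intro z hz
    by_contra hlt
    push Not at hlt
    have h2 : ∀ n : ℕ, ‖e.symm z‖ ^ n ≤ 2 := by
      intro n
      rw [← norm_pow, ← map_pow]
      refine le_trans (hbound _) ?_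
      have h3 : ‖z ^ n‖ = 1 := by rw [norm_pow, hz, one_pow]
      have h4 := Complex.abs_re_le_norm (z ^ n)
      have h5 := Complex.abs_im_le_norm (z ^ n)
      rw [h3] at h4 h5
      linarith
    obtain ⟨n, hn⟩ := ((tendsto_pow_atTop_atTop_of_one_lt hlt).eventually_gt_atTop 2).exists
    exact absurd (h2 n) (not_le.mpr hn)
  have hle : ∀ z : ℂ, ‖e.symm z‖ ≤ ‖z‖ := by
    intro z
    by_cases hz : z = 0
    · rw [hz, map_zero, norm_zero, norm_zero]
    · have hz' : ‖z‖ ≠ 0 := norm_ne_zero_iff.mpr hz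
      have h : z = (‖z‖ : ℂ) * (z / (‖z‖ : ℂ)) := by
        rw [mul_div_cancel₀]
        exact_mod_cast hz'
      have h1 : ‖z / (‖z‖ : ℂ)‖ = 1 := by
        rw [norm_div, Complex.norm_real, norm_norm, div_self hz']
      calc ‖e.symm z‖ = ‖e.symm ((‖z‖ : ℂ) * (z / (‖z‖ : ℂ)))‖ := by rw [← h]
        _ = ‖z‖ * ‖e.symm (z / (‖z‖ : ℂ))‖ := by
          rw [map_mul, norm_mul, hreal, abs_norm]
        _ ≤ ‖z‖ * 1 := by
          apply mul_le_mul_of_nonneg_left (hunit _ h1) (norm_nonneg _)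
        _ = ‖z‖ := mul_one _
  have heq : ∀ z : ℂ, ‖e.symm z‖ = ‖z‖ := by
    intro z
    by_cases hz : z = 0
    · rw [hz, map_zero, norm_zero, norm_zero]
    · apply le_antisymm (hle z)
      have h1 := hle z⁻¹
      have h2 : 0 < ‖z‖ := norm_pos_iff.mpr hz
      have h3 : 0 < ‖e.symm z‖ := by
        rw [norm_pos_iff]
        intro h
        apply hz
        have := congrArg e h
        rwa [AlgEquiv.apply_symm_apply, map_zero] at this
      rw [map_inv₀, norm_inv, norm_inv] at h1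
      exact (inv_le_inv₀ h3 h2).mp h1
  have := heq (e x)
  rw [AlgEquiv.symm_apply_apply] at this
  exact this.symm

lemma norm_algEquiv_real (e : L ≃ₐ[ℝ] ℝ) (x : L) : ‖e x‖ = ‖x‖ := by
  have h : e.symm (e x) = algebraMap ℝ L (e x) := e.symm.commutes (e x)
  rw [AlgEquiv.symm_apply_apply] at h
  conv_rhs => rw [h]
  rw [norm_algebraMap']

lemma exists_ringHom : ∃ f : L →+* ℂ, ∀ x, ‖f x‖ = ‖x‖ := by
  rcases NormedAlgebra.Real.nonempty_algEquiv_or L with ⟨⟨e⟩⟩ | ⟨⟨e⟩⟩
  · refine ⟨Complex.ofRealHom.comp (e : L →+* ℝ), fun x => ?_⟩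
    have h1 : (Complex.ofRealHom.comp (e : L →+* ℝ)) x = ((e x : ℝ) : ℂ) := rfl
    rw [h1, Complex.norm_real, norm_algEquiv_real e x]
  · exact ⟨(e : L →+* ℂ), fun x => norm_algEquiv_complex e x⟩

end Norm

section Embedding

variable {L : Type u} [NormedField L] [CompleteSpace L]

/-- A complete normed field whose norm is the usual one on `ℕ` embeds isometrically in `ℂ`. -/
theorem exists_ringHom_of_complete (hL : ∀ n : ℕ, ‖(n : L)‖ = n) :
    ∃ f : L →+* ℂ, ∀ x, ‖f x‖ = ‖x‖ := by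
  have hchar : CharZero L := by
    refine ⟨fun m n hmn => ?_⟩
    have h1 := hL m
    have h2 := hL n
    rw [hmn, h2] at h1
    exact_mod_cast h1.symm
  have hint : ∀ m : ℤ, ‖(m : L)‖ = |(m : ℝ)| := by
    intro m
    obtain ⟨n, rfl | rfl⟩ := m.eq_nat_or_neg
    · simp [hL]
    · simp [hL]
  have hrat : ∀ q : ℚ, ‖(q : L)‖ = |(q : ℝ)| := by
    intro q
    have h1 : (q : L) = (q.num : L) / (q.den : L) := Rat.cast_def q
    have h2 : (q : ℝ) = (q.num : ℝ) / (q.den : ℝ) := Rat.cast_def q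
    rw [h1, norm_div, hint, hL, h2, abs_div, Nat.abs_cast]
  let j : ℚ →+* L := Rat.castHom L
  have hj : UniformContinuous j := by
    apply Isometry.uniformContinuous
    apply Isometry.of_dist_eq
    intro x y
    show dist (x : L) (y : L) = dist x y
    rw [dist_eq_norm, ← Rat.cast_sub, hrat, Rat.dist_eq]
    push_cast
    rfl
  have hi : IsUniformInducing (Rat.castHom ℝ) := Rat.isUniformEmbedding_coe_real.isUniformInducing
  have hd : DenseRange (Rat.castHom ℝ) := Rat.denseRange_cast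
  let ρ : ℝ →+* L := IsDenseInducing.extendRingHom hi hd hj
  have hρc : Continuous ρ := (uniformContinuous_uniformly_extend hi hd hj).continuous
  have hρq : ∀ q : ℚ, ρ (q : ℝ) = (q : L) := fun q =>
    IsDenseInducing.extend_eq (hi.isDenseInducing hd) hj.continuous q
  have hρn : ∀ r : ℝ, ‖ρ r‖ = ‖r‖ := by
    intro r
    have hcl : IsClosed {r : ℝ | ‖ρ r‖ = ‖r‖} := isClosed_eq hρc.norm continuous_norm
    refine isClosed_property (e := (Rat.cast : ℚ → ℝ)) Rat.denseRange_cast hcl ?_ r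
    intro q
    rw [hρq, hrat]
    rfl
  let _ : Algebra ℝ L := ρ.toAlgebra
  let _ : NormedAlgebra ℝ L :=
    { norm_smul_le := fun r x => by
        rw [Algebra.smul_def, norm_mul]
        show ‖ρ r‖ * ‖x‖ ≤ _
        rw [hρn] }
  exact exists_ringHom

end Embedding

/-- A field with an absolute value which is the usual one on `ℕ` embeds isometrically in `ℂ`. -/
theorem exists_embedding {K : Type u} [Field K] (v : AbsoluteValue K ℝ)
    (hv : ∀ n : ℕ, v (n : K) = n) : ∃ f : K →+* ℂ, ∀ x, ‖f x‖ = v x := by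
  let ι : K →+* v.Completion :=
    (UniformSpace.Completion.coeRingHom (α := WithAbs v)).comp
      ((WithAbs.equiv v).symm : K →+* WithAbs v)
  have hι : ∀ x, ‖ι x‖ = v x := by
    intro x
    show ‖((WithAbs.toAbs v x : WithAbs v) : UniformSpace.Completion (WithAbs v))‖ = v x
    rw [UniformSpace.Completion.norm_coe]
    rfl
  obtain ⟨f, hf⟩ := exists_ringHom_of_complete (L := v.Completion) (by
    intro n
    rw [← map_natCast ι n, hι, hv])
  exact ⟨f.comp ι, fun x => by rw [RingHom.comp_apply, hf, hι]⟩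

end Pool.Agent.V119.Ostrowski
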