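import Mathlib

set_option autoImplicit false

/-!
Self-inverting formal power series: definitions, and the theorem that self-inverting polynomials
are Hessian nilpotent.
-/

namespace Pool.Agent.V119.SelfInv

open scoped Matrix

/-! ### Polynomials -/

section Poly

lemma nilp_of_charpolyRev_eq_one {R : Type*} [CommRing R] [Nontrivial R] {n : ℕ}
    (M : Matrix (Fin n) (Fin n) R) (h : M.charpolyRev = 1) : IsNilpotent M := by
  have hd : M.charpoly.natDegree = n := by
    rw [Matrix.charpoly_natDegree_eq_dim, Fintype.card_fin]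
  have h1 : M.charpoly = Polynomial.X ^ n := by
    ext i
    rw [Polynomial.coeff_X_pow]
    split_ifs with hi
    · rw [hi]
      have := Matrix.charpoly_monic M
      rw [Polynomial.Monic, Polynomial.leadingCoeff, hd] at this
      exact this
    · rcases lt_or_gt_of_ne hi with hlt | hgt
      · have h2 : (M.charpoly.reverse).coeff (n - i) = 0 := by
          rw [Matrix.reverse_charpoly, h, Polynomial.coeff_one, if_neg (by omega)]
        rw [Polynomial.coeff_reverse, hd, Polynomial.revAt_le (by omega)] at h2
        rwa [show n - (n - i) = i by omega] at h2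
      · exact Polynomial.coeff_eq_zero_of_natDegree_lt (by omega)
  refine ⟨n, ?_⟩
  have h2 := Matrix.aeval_self_charpoly M
  rw [h1, map_pow, Polynomial.aeval_X] at h2
  exact h2

lemma charpolyRev_eq_one_of_nilp {n : ℕ} (M : Matrix (Fin n) (Fin n) ℂ) (h : IsNilpotent M) :
    M.charpolyRev = 1 := by
  have h1 := Matrix.isUnit_charpolyRev_of_isNilpotent h
  rw [Polynomial.isUnit_iff] at h1
  obtain ⟨r, _, hr⟩ := h1
  have h2 : Polynomial.eval 0 M.charpolyRev = 1 := Matrix.eval_charpolyRev
  rw [← hr, Polynomial.eval_C] at h2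
  rw [← hr, h2, Polynomial.C_1]

lemma eval_charpolyRev_nat {R : Type*} [CommRing R] {n : ℕ}
    (M : Matrix (Fin n) (Fin n) R) (r : R) :
    M.charpolyRev.eval r = (1 - r • M).det := by
  unfold Matrix.charpolyRev
  rw [← Polynomial.coe_evalRingHom, RingHom.map_det]
  congr 1
  ext i j
  by_cases hij : i = j
  · subst hij
    simp only [RingHom.mapMatrix_apply, Matrix.map_apply, Matrix.sub_apply, Matrix.one_apply_eq,
      Matrix.smul_apply, smul_eq_mul, Polynomial.coe_evalRingHom, Polynomial.eval_sub,
      Polynomial.eval_one, Polynomial.eval_mul, Polynomial.eval_X, Polynomial.eval_C]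
  · simp only [RingHom.mapMatrix_apply, Matrix.map_apply, Matrix.sub_apply,
      Matrix.one_apply_ne hij, Matrix.smul_apply, smul_eq_mul, Polynomial.coe_evalRingHom,
      Polynomial.eval_sub, Polynomial.eval_zero, Polynomial.eval_mul, Polynomial.eval_X,
      Polynomial.eval_C]

open MvPolynomial

/-- The chain rule. -/
lemma pderiv_aeval {n : ℕ} (F : Fin n → MvPolynomial (Fin n) ℂ) (f : MvPolynomial (Fin n) ℂ)
    (j : Fin n) :
    pderiv j (aeval F f) = ∑ l, aeval F (pderiv l f) * pderiv j (F l) := by
  induction f using MvPolynomial.induction_on with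
  | C a => simp [MvPolynomial.algebraMap_eq]
  | add p q hp hq => simp only [map_add, hp, hq, add_mul, Finset.sum_add_distrib]
  | mul_X p i hp =>
    simp only [map_mul, aeval_X, Derivation.leibniz, smul_eq_mul, map_add, hp, add_mul,
      Finset.sum_add_distrib, Finset.mul_sum]
    congr 1
    · rw [Finset.sum_eq_single i]
      · simp
      · intro b _ hb
        simp [MvPolynomial.pderiv_X_of_ne hb.symm]
      · simp
    · refine Finset.sum_congr rfl fun l _ => by ring

/-- the polynomial case, in terms of polynomials. -/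
theorem poly_nilp {n : ℕ} (P : MvPolynomial (Fin n) ℂ)
    (h0 : IsNilpotent (Matrix.of fun i j => constantCoeff (pderiv i (pderiv j P)) :
      Matrix (Fin n) (Fin n) ℂ))
    (hinv : ∀ i, aeval (fun j => X j - pderiv j P) (X i + pderiv i P) =
      (X i : MvPolynomial (Fin n) ℂ)) :
    IsNilpotent (Matrix.of fun i j => pderiv i (pderiv j P) :
      Matrix (Fin n) (Fin n) (MvPolynomial (Fin n) ℂ)) := by
  set H : Matrix (Fin n) (Fin n) (MvPolynomial (Fin n) ℂ) :=
    Matrix.of fun i j => pderiv i (pderiv j P) with hH
  let F : ℕ → Fin n → MvPolynomial (Fin n) ℂ :=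
    fun k j => X j - (k : MvPolynomial (Fin n) ℂ) * pderiv j P
  have h1 : ∀ i, aeval (fun j => X j - pderiv j P) (pderiv i P) = pderiv i P := by
    intro i
    have h := hinv i
    rw [map_add, aeval_X] at h
    linear_combination h
  have h2 : ∀ k i, aeval (F k) (pderiv i P) = pderiv i P := by
    intro k
    induction k with
    | zero =>
      intro i
      have : F 0 = X := by
        funext j
        simp [F]
      rw [this, aeval_X_left, AlgHom.id_apply]
    | succ k ih =>
      intro i
      have h3 : F (k + 1) = fun j => aeval (F k) (X j - pderiv j P) := by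
        funext j
        rw [map_sub, ih, aeval_X]
        simp only [F]
        push_cast
        ring
      rw [h3]
      have h4 : aeval (fun j => aeval (F k) (X j - pderiv j P)) (pderiv i P) =
          aeval (F k) (aeval (fun j => X j - pderiv j P) (pderiv i P)) := by
        rw [← MvPolynomial.comp_aeval_apply]
      rw [h4, h1, ih]
  have h3 : ∀ (k : ℕ) i, aeval (F k) (X i + (k : MvPolynomial (Fin n) ℂ) * pderiv i P) = X i := by
    intro k i
    rw [map_add, map_mul, h2, aeval_X, map_natCast]
    simp only [F]
    ring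
  -- the matrix identity
  have h4 : ∀ k : ℕ, ((1 + (k : MvPolynomial (Fin n) ℂ) • H)ᵀ.map (aeval (F k))) *
      (1 - (k : MvPolynomial (Fin n) ℂ) • H)ᵀ = 1 := by
    intro k
    apply Matrix.ext
    intro i j
    have h5 := congrArg (pderiv j) (h3 k i)
    rw [pderiv_aeval] at h5
    rw [Matrix.mul_apply, Matrix.one_apply]
    have h6 : (if i = j then (1 : MvPolynomial (Fin n) ℂ) else 0) = pderiv j (X i) := by
      by_cases hij : i = j
      · subst hij
        simp
      · rw [if_neg hij, MvPolynomial.pderiv_X_of_ne hij]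
    rw [h6, ← h5]
    apply Finset.sum_congr rfl
    intro l _
    congr 1
    · rw [Matrix.map_apply]
      congr 1
      rw [map_add, pderiv_mul]
      simp only [Matrix.transpose_apply, Matrix.add_apply, Matrix.smul_apply, smul_eq_mul, hH,
        Matrix.of_apply]
      by_cases hil : i = l
      · subst hil
        simp
      · rw [Matrix.one_apply_ne (Ne.symm hil), MvPolynomial.pderiv_X_of_ne hil]
        simp
    · simp only [Matrix.transpose_apply, F, map_sub, Derivation.leibniz]
      simp only [Matrix.sub_apply, Matrix.smul_apply, smul_eq_mul, hH, Matrix.of_apply]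
      by_cases hjl : l = j
      · subst hjl
        simp
      · rw [Matrix.one_apply_ne (Ne.symm hjl), MvPolynomial.pderiv_X_of_ne hjl]
        simp
  have h5 : ∀ k : ℕ, IsUnit (1 - (k : MvPolynomial (Fin n) ℂ) • H).det := by
    intro k
    have h := congrArg Matrix.det (h4 k)
    rw [Matrix.det_mul, Matrix.det_one, Matrix.det_transpose] at h
    exact IsUnit.of_mul_eq_one _ (by rw [mul_comm]; exact h)
  have h6 : ∀ k : ℕ, (1 - (k : MvPolynomial (Fin n) ℂ) • H).det = 1 := by
    intro k
    obtain ⟨r, _, hr⟩ := MvPolynomial.isUnit_iff_eq_C_of_isReduced.mp (h5 k)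
    have h7 := congrArg constantCoeff hr
    rw [MvPolynomial.constantCoeff_C, RingHom.map_det] at h7
    have h8 : (RingHom.mapMatrix constantCoeff) (1 - (k : MvPolynomial (Fin n) ℂ) • H) =
        1 - (k : ℂ) • (Matrix.of fun i j => constantCoeff (pderiv i (pderiv j P)) :
          Matrix (Fin n) (Fin n) ℂ) := by
      ext i j
      by_cases hij : i = j
      · subst hij
        simp [hH]
      · simp [hH, Matrix.one_apply_ne hij]
    rw [h8, ← eval_charpolyRev_nat, charpolyRev_eq_one_of_nilp _ h0, Polynomial.eval_one] at h7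
    rw [hr, ← h7, map_one]
  apply nilp_of_charpolyRev_eq_one
  apply Polynomial.eq_of_infinite_eval_eq
  have hinj : Function.Injective (fun k : ℕ => (k : MvPolynomial (Fin n) ℂ)) := Nat.cast_injective
  refine Set.Infinite.mono ?_ (Set.infinite_range_of_injective hinj)
  rintro _ ⟨k, rfl⟩
  show Polynomial.eval _ _ = Polynomial.eval _ _
  rw [eval_charpolyRev_nat, h6, Polynomial.eval_one]

end Poly

open MvPowerSeries

/-- The Hessian matrix `(∂_i ∂_j P)` of a formal power series in `n` variables. -/
noncomputable def hessian {n : ℕ} (P : MvPowerSeries (Fin n) ℂ) :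
    Matrix (Fin n) (Fin n) (MvPowerSeries (Fin n) ℂ) :=
  Matrix.of fun i j => pderiv ℂ i (pderiv ℂ j P)

/-- The Hessian matrix evaluated at the origin. -/
noncomputable def hessianAtZero {n : ℕ} (P : MvPowerSeries (Fin n) ℂ) :
    Matrix (Fin n) (Fin n) ℂ :=
  Matrix.of fun i j => constantCoeff (pderiv ℂ i (pderiv ℂ j P))

/-- `P` is Hessian nilpotent (HN). -/
def HN {n : ℕ} (P : MvPowerSeries (Fin n) ℂ) : Prop := IsNilpotent (hessian P)

/-- `Q` is the inversion pair of `P`: `o(Q) ≥ 2` and the formal map `z + ∇Q(z)` is the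
(two-sided) formal inverse of the formal map `z - ∇P(z)`. -/
def IsInversionPair {n : ℕ} (P Q : MvPowerSeries (Fin n) ℂ) : Prop :=
  2 ≤ Q.order ∧
  (∀ i, subst (fun j => X j - pderiv ℂ j P) (X i + pderiv ℂ i Q) =
    (X i : MvPowerSeries (Fin n) ℂ)) ∧
  (∀ i, subst (fun j => X j + pderiv ℂ j Q) (X i - pderiv ℂ i P) =
    (X i : MvPowerSeries (Fin n) ℂ))

/-- `P` is self-inverting: `o(P) ≥ 2`, `(Hes P)(0)` is nilpotent and `P` is its own inversion
pair. -/
def SelfInverting {n : ℕ} (P : MvPowerSeries (Fin n) ℂ) : Prop :=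
  2 ≤ P.order ∧ IsNilpotent (hessianAtZero P) ∧ IsInversionPair P P

/-- **Every self-inverting polynomial is Hessian nilpotent.** -/
theorem polynomial_HN {n : ℕ} (P : MvPolynomial (Fin n) ℂ)
    (h : SelfInverting (P : MvPowerSeries (Fin n) ℂ)) : HN (P : MvPowerSeries (Fin n) ℂ) := by
  obtain ⟨_, h0, _, hinv, _⟩ := h
  have e1 : IsNilpotent (Matrix.of fun i j => MvPolynomial.pderiv i (MvPolynomial.pderiv j P) :
      Matrix (Fin n) (Fin n) (MvPolynomial (Fin n) ℂ)) := by
    apply poly_nilp
    · convert h0 using 1
      ext i j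
      simp only [hessianAtZero, Matrix.of_apply, pderiv_coe]
      rfl
    · intro i
      have h1 := hinv i
      have h2 : (X i + pderiv ℂ i (P : MvPowerSeries (Fin n) ℂ)) =
          ((MvPolynomial.X i + MvPolynomial.pderiv i P : MvPolynomial (Fin n) ℂ) :
            MvPowerSeries (Fin n) ℂ) := by
        rw [pderiv_coe]
        simp
      rw [h2, subst_coe] at h1
      apply MvPolynomial.coe_injective
      rw [MvPolynomial.coe_X, ← h1]
      have h3 : (fun j => X j - pderiv ℂ j (P : MvPowerSeries (Fin n) ℂ)) =
          fun j => MvPolynomial.coeToMvPowerSeries.algHom ℂ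
            (MvPolynomial.X j - MvPolynomial.pderiv j P) := by
        funext j
        rw [pderiv_coe, map_sub]
        simp
      rw [h3, ← MvPolynomial.comp_aeval_apply]
      simp
  have e2 : hessian (P : MvPowerSeries (Fin n) ℂ) =
      (MvPolynomial.coeToMvPowerSeries.ringHom).mapMatrix
        (Matrix.of fun i j => MvPolynomial.pderiv i (MvPolynomial.pderiv j P) :
          Matrix (Fin n) (Fin n) (MvPolynomial (Fin n) ℂ)) := by
    ext i j : 2
    simp [hessian, pderiv_coe]
  rw [HN, e2]
  exact e1.map _

end Pool.Agent.V119.SelfInv
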